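import Pool.Agent.Helper97.Nag.Goals

/-!
NAG-CRV (captain helper97): the plane curve of degree `k`.
-/

set_option autoImplicit false

noncomputable section

namespace Pool.Agent.Helper79.Nag.CRV

open Module Pool.Agent.Helper97 Pool.Agent.Helper97.Nag

open Pool.Agent.Helper97.Tate (OO KK SS cf IsTh qe Th iO ser evx evK th Van Fm tst nP Idx Indep IsCub)

/-- the matrix `X_1 - A` -/
def mtx {R : Type} [CommRing R] {k : ℕ} (a b : Fin k → Fin k → R) :
    Matrix (Fin k) (Fin k) (MvPolynomial (Fin 3) R) :=
  Matrix.of fun i j => (if i = j then MvPolynomial.X 1 else 0) -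
    (MvPolynomial.C (a i j) * MvPolynomial.X 0 + MvPolynomial.C (b i j) * MvPolynomial.X 2)

theorem mtx_hom {R : Type} [CommRing R] {k : ℕ} (a b : Fin k → Fin k → R) :
    (mtx a b).det.IsHomogeneous k := by
  rw [Matrix.det_apply]
  apply MvPolynomial.IsHomogeneous.sum
  intro σ _
  have h1 : (∏ i : Fin k, mtx a b (σ i) i).IsHomogeneous (∑ _i : Fin k, 1) := by
    apply MvPolynomial.IsHomogeneous.prod
    intro i _
    unfold mtx
    rw [Matrix.of_apply]
    apply MvPolynomial.IsHomogeneous.sub
    · split_ifs
      · exact MvPolynomial.isHomogeneous_X _ _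
      · exact MvPolynomial.isHomogeneous_zero _ _ _
    · apply MvPolynomial.IsHomogeneous.add
      · exact MvPolynomial.isHomogeneous_C_mul_X _ _
      · exact MvPolynomial.isHomogeneous_C_mul_X _ _
  rw [Finset.sum_const, Finset.card_univ, Fintype.card_fin, smul_eq_mul, mul_one] at h1
  rcases Int.units_eq_one_or (Equiv.Perm.sign σ) with h | h
  · rw [h, one_smul]
    exact h1
  · rw [h, Units.neg_smul, one_smul]
    exact h1.neg

/-- the value of a homogeneous polynomial at `(0, 1, 0)` -/
theorem eval_hom {R : Type} [CommRing R] (k : ℕ) (p : MvPolynomial (Fin 3) R)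
    (hp : p.IsHomogeneous k) :
    MvPolynomial.eval (![0, 1, 0] : Fin 3 → R) p = p.coeff (Finsupp.single 1 k) := by
  rw [MvPolynomial.eval_eq']
  rw [Finset.sum_eq_single (Finsupp.single 1 k)]
  · rw [Fin.prod_univ_three]
    simp
  · intro e he hne
    have h1 : e.degree = k := by
      have h2 := hp (MvPolynomial.mem_support_iff.1 he)
      rw [Finsupp.degree_eq_weight_one]
      exact h2
    rw [Fin.prod_univ_three]
    by_cases h0 : e 0 = 0
    · by_cases h2 : e 2 = 0
      · exfalso
        apply hne
        have h3 : e 0 + e 1 + e 2 = k := by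
          rw [← h1, Finsupp.degree_eq_sum, Fin.sum_univ_three]
        ext i
        fin_cases i
        · simpa using h0
        · simp
          omega
        · simpa using h2
      · have : (0 : R) ^ (e 2) = 0 := zero_pow h2
        simp [this]
    · have : (0 : R) ^ (e 0) = 0 := zero_pow h0
      simp [this]
  · intro h
    rw [MvPolynomial.notMem_support_iff.1 h, zero_mul]

theorem t (h1 : S_GTW) (h2 : S_INDK) (h3 : Tate.S_THC) : S_CRV := by
  intro F _ _ k hk
  have hc0 : (2 : F) ≠ 0 := two_ne_zero
  have hc1 : (2 : F) ≠ 1 := by norm_num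
  choose a b hab using h1 F k 2 hk hc0 hc1
  let φ : MvPolynomial (Fin 3) (OO F) →+* SS F :=
    MvPolynomial.eval₂Hom iO (fun r : Fin 3 => Th k ((r : ℕ) : ℤ) (1 : F))
  have hφX : ∀ r : Fin 3, φ (MvPolynomial.X r) = Th k ((r : ℕ) : ℤ) (1 : F) := by
    intro r
    exact MvPolynomial.eval₂Hom_X' _ _ _
  have hφC : ∀ c : OO F, φ (MvPolynomial.C c) = iO c := by
    intro c
    exact MvPolynomial.eval₂Hom_C _ _ _
  -- the determinant vanishes on the curve
  have hdet : φ (mtx a b).det = 0 := by
    rw [RingHom.map_det]
    rw [← Matrix.exists_mulVec_eq_zero_iff]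
    refine ⟨fun ρ => Th k ((ρ : ℕ) : ℤ) (2 : F), ?_, ?_⟩
    · intro h
      have h4 := congrFun h ⟨1, by omega⟩
      have h5 := (h3 F k 1 2 hc0 (by norm_num) (by omega)).2.2
      have h6 : Th k 1 (2 : F) = 0 := by
        simpa using h4
      rw [h6, if_neg one_ne_zero, map_zero] at h5
      have h7 := (LaurentPolynomial.isUnit_T (R := F) 1).ne_zero
      exact h7 h5.symm
    · funext ρ
      rw [Matrix.mulVec, dotProduct, Pi.zero_apply]
      have h4 : ∀ ρ' : Fin k, (φ.mapMatrix (mtx a b)) ρ ρ' * Th k ((ρ' : ℕ) : ℤ) (2 : F) =
          (if ρ = ρ' then Th k 1 (1 : F) * Th k ((ρ' : ℕ) : ℤ) (2 : F) else 0) -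
          (iO (a ρ ρ') * Th k 0 1 + iO (b ρ ρ') * Th k 2 1) * Th k ((ρ' : ℕ) : ℤ) (2 : F) := by
        intro ρ'
        rw [RingHom.mapMatrix_apply, Matrix.map_apply, mtx, Matrix.of_apply, map_sub, map_add,
          map_mul, map_mul, hφX, hφX, hφC, hφC, sub_mul]
        congr 1
        split_ifs with h
        · rw [hφX]
          rfl
        · rw [map_zero, zero_mul]
      rw [Finset.sum_congr rfl fun ρ' _ => h4 ρ', Finset.sum_sub_distrib, ← hab ρ,
        Finset.sum_ite_eq, if_pos (Finset.mem_univ _), sub_self]
  refine ⟨-(mtx a b).det, (mtx_hom a b).neg, ?_, ?_⟩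
  · -- the reduction
    have hhom : (MvPolynomial.map PowerSeries.constantCoeff (-(mtx a b).det) - g0 F k).IsHomogeneous
        k := by
      apply MvPolynomial.IsHomogeneous.sub
      · exact (mtx_hom a b).neg.map _
      · unfold g0
        apply MvPolynomial.IsHomogeneous.sub
        · apply MvPolynomial.IsHomogeneous.sub
          · have h := ((MvPolynomial.isHomogeneous_X F (0 : Fin 3)).mul
              ((MvPolynomial.isHomogeneous_X F (1 : Fin 3)).pow (k - 2))).mul
              (MvPolynomial.isHomogeneous_X F (2 : Fin 3))
            have h4 : 1 + 1 * (k - 2) + 1 = k := by omega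
            rw [h4] at h
            exact h
          · have h := (MvPolynomial.isHomogeneous_X F (1 : Fin 3)).pow k
            rwa [one_mul] at h
        · have h := (MvPolynomial.isHomogeneous_X F (2 : Fin 3)).pow k
          rwa [one_mul] at h
    have hval : MvPolynomial.eval (![0, 1, 0] : Fin 3 → F)
        (MvPolynomial.map PowerSeries.constantCoeff (-(mtx a b).det) - g0 F k) = 0 := by
      rw [map_sub, map_neg, map_neg]
      have h4 : MvPolynomial.eval (![0, 1, 0] : Fin 3 → F)
          (MvPolynomial.map PowerSeries.constantCoeff (mtx a b).det) = 1 := by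
        have h5 : MvPolynomial.eval (![0, 1, 0] : Fin 3 → F)
          (MvPolynomial.map PowerSeries.constantCoeff (mtx a b).det) =
          ((MvPolynomial.eval (![0, 1, 0] : Fin 3 → F)).comp
            (MvPolynomial.map PowerSeries.constantCoeff)) (mtx a b).det := rfl
        rw [h5, RingHom.map_det]
        have h6 : (((MvPolynomial.eval (![0, 1, 0] : Fin 3 → F)).comp
            (MvPolynomial.map PowerSeries.constantCoeff)).mapMatrix (mtx a b)) = 1 := by
          ext i j
          rw [RingHom.mapMatrix_apply, Matrix.map_apply, mtx, Matrix.of_apply, Matrix.one_apply,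
            RingHom.comp_apply, map_sub, map_sub, map_add, map_add, map_mul, map_mul, map_mul,
            map_mul, MvPolynomial.map_X, MvPolynomial.map_X, MvPolynomial.eval_X,
            MvPolynomial.eval_X]
          split_ifs with h
          · rw [MvPolynomial.map_X, MvPolynomial.eval_X]
            simp
          · simp
        rw [h6, Matrix.det_one]
      rw [h4, g0]
      have h5 : k ≠ 0 := by omega
      simp [h5]
    have hcoef := eval_hom k _ hhom
    rw [hval] at hcoef
    have hexp : ∀ e ∈ (MvPolynomial.map PowerSeries.constantCoeff (-(mtx a b).det) -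
        g0 F k).support, e 1 < k := by
      intro e he
      have h4 : e.degree = k := by
        have h5 := hhom (MvPolynomial.mem_support_iff.1 he)
        rw [Finsupp.degree_eq_weight_one]
        exact h5
      have h6 : e 0 + e 1 + e 2 = k := by
        rw [← h4, Finsupp.degree_eq_sum, Fin.sum_univ_three]
      by_contra h7
      have h8 : e = Finsupp.single 1 k := by
        ext i
        fin_cases i
        · simp
          omega
        · simp
          omega
        · simp
          omega
      rw [h8, MvPolynomial.mem_support_iff] at he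
      exact he hcoef.symm
    have hker : MvPolynomial.aeval ![(1 + LaurentPolynomial.T (k : ℤ) : LaurentPolynomial F),
        LaurentPolynomial.T 1, LaurentPolynomial.T 2]
        (MvPolynomial.map PowerSeries.constantCoeff (-(mtx a b).det) - g0 F k) = 0 := by
      rw [map_sub]
      have h4 : MvPolynomial.aeval ![(1 + LaurentPolynomial.T (k : ℤ) : LaurentPolynomial F),
          LaurentPolynomial.T 1, LaurentPolynomial.T 2]
          (MvPolynomial.map PowerSeries.constantCoeff (-(mtx a b).det)) = 0 := by
        have h5 : ((MvPolynomial.aeval ![(1 + LaurentPolynomial.T (k : ℤ) : LaurentPolynomial F),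
          LaurentPolynomial.T 1, LaurentPolynomial.T 2]).toRingHom.comp
          (MvPolynomial.map PowerSeries.constantCoeff)) =
          (PowerSeries.constantCoeff (R := LaurentPolynomial F)).comp φ := by
          apply MvPolynomial.ringHom_ext
          · intro r
            rw [RingHom.comp_apply, RingHom.comp_apply, hφC, MvPolynomial.map_C]
            have h6 : PowerSeries.constantCoeff (iO r) =
                LaurentPolynomial.C (PowerSeries.constantCoeff r) := by
              unfold iO
              rw [← PowerSeries.coeff_zero_eq_constantCoeff_apply, PowerSeries.coeff_map,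
                PowerSeries.coeff_zero_eq_constantCoeff_apply]
            rw [h6]
            simp
          · intro r
            rw [RingHom.comp_apply, RingHom.comp_apply, hφX, MvPolynomial.map_X]
            have h6 := (h3 F k ((r : ℕ) : ℤ) 1 one_ne_zero (by omega) (by
              have := r.isLt
              omega)).2.2
            rw [h6]
            fin_cases r
            · simp
            · simp
            · simp
        have h6 := congrArg (fun f => f (-(mtx a b).det)) h5
        simp only [RingHom.comp_apply] at h6
        rw [map_neg φ, hdet, neg_zero, map_zero] at h6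
        exact h6
      rw [h4, g0]
      simp only [map_sub, map_mul, map_pow, MvPolynomial.aeval_X]
      have h5 : (LaurentPolynomial.T 1 : LaurentPolynomial F) ^ (k - 2) * LaurentPolynomial.T 2 =
          LaurentPolynomial.T (k : ℤ) := by
        rw [LaurentPolynomial.T_pow, ← LaurentPolynomial.T_add]
        congr 1
        omega
      have h6 : (LaurentPolynomial.T 1 : LaurentPolynomial F) ^ k =
          LaurentPolynomial.T (k : ℤ) := by
        rw [LaurentPolynomial.T_pow]
        congr 1
        omega
      have h7 : (LaurentPolynomial.T 2 : LaurentPolynomial F) ^ k =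
          LaurentPolynomial.T (k : ℤ) * LaurentPolynomial.T (k : ℤ) := by
        rw [LaurentPolynomial.T_pow, ← LaurentPolynomial.T_add]
        congr 1
        omega
      have h8 : (![(1 + LaurentPolynomial.T (k : ℤ) : LaurentPolynomial F),
          LaurentPolynomial.T 1, LaurentPolynomial.T 2] 0) = 1 + LaurentPolynomial.T (k : ℤ) := rfl
      have h9 : (![(1 + LaurentPolynomial.T (k : ℤ) : LaurentPolynomial F),
          LaurentPolynomial.T 1, LaurentPolynomial.T 2] 1) = LaurentPolynomial.T 1 := rfl
      have h10 : (![(1 + LaurentPolynomial.T (k : ℤ) : LaurentPolynomial F),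
          LaurentPolynomial.T 1, LaurentPolynomial.T 2] 2) = LaurentPolynomial.T 2 := rfl
      rw [h8, h9, h10, h7, h6, mul_assoc, h5]
      ring
    have h4 := h2 F k k _ hk hhom hexp hker
    exact sub_eq_zero.1 h4
  · have h4 : MvPolynomial.eval₂ iO (fun r : Fin 3 => Th k ((r : ℕ) : ℤ) (1 : F))
        (-(mtx a b).det) = φ (-(mtx a b).det) := rfl
    rw [h4, map_neg, hdet, neg_zero]

end Pool.Agent.Helper79.Nag.CRV
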